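import Mathlib
import Pool.Agent.W854.HW.Stmts

/-! HW-GAPD -/

set_option autoImplicit false

open MeasureTheory ProbabilityTheory Filter Topology Finset Set
open scoped NNReal ENNReal

noncomputable section

namespace Pool.Agent.W683.HW

open Pool.Agent.W854.HW

theorem ii (f : ℝ → ℝ) (hf : Measurable f) (C : ℝ) (h : ∀ x, ‖f x‖ ≤ C) (a b : ℝ) :
    IntervalIntegrable f volume a b := by
  rw [intervalIntegrable_iff]
  exact Measure.integrableOn_of_bounded (M := C) (by
    rw [uIoc]; exact measure_Ioc_lt_top.ne) hf.aestronglyMeasurable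
    (ae_of_all _ h)

theorem alive_meas {Ω : Type} {mΩ : MeasurableSpace Ω} {P : Measure Ω}
    {F : Filtration ℝ≥0 mΩ} {D : ℝ≥0 → Ω → ℝ} (hc : ∀ ω, Continuous fun t => D t ω)
    (hD : StronglyAdapted F D) (t : ℝ≥0) : MeasurableSet[F t] (alive D t) := by
  obtain ⟨S, hS, hSd⟩ := TopologicalSpace.exists_countable_dense ℝ≥0
  have heq : alive D t = ⋃ m : ℕ, ⋂ q ∈ S, {ω | 1 / ((m : ℝ) + 1) ≤ D (min q t) ω ∧
      D (min q t) ω ≤ 4 - 1 / ((m : ℝ) + 1)} := by
    ext ω
    constructor
    · intro h
      have hK : IsCompact (Icc (0 : ℝ≥0) t) := isCompact_Icc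
      have hne : (Icc (0 : ℝ≥0) t).Nonempty := ⟨0, le_rfl, bot_le⟩
      obtain ⟨s1, hs1, h1⟩ := hK.exists_isMinOn hne (hc ω).continuousOn
      obtain ⟨s2, hs2, h2⟩ := hK.exists_isMaxOn hne (hc ω).continuousOn
      have p1 : 0 < D s1 ω := (h s1 hs1.2).1
      have p2 : D s2 ω < 4 := (h s2 hs2.2).2
      obtain ⟨m, hm⟩ := exists_nat_one_div_lt (lt_min p1 (sub_pos.mpr p2))
      rw [Set.mem_iUnion]
      refine ⟨m, ?_⟩
      rw [Set.mem_iInter₂]
      intro q _
      have hq : min q t ∈ Icc (0 : ℝ≥0) t := ⟨bot_le, min_le_right _ _⟩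
      have a1 : D s1 ω ≤ D (min q t) ω := h1 hq
      have a2 : D (min q t) ω ≤ D s2 ω := h2 hq
      have b1 := hm.trans_le (min_le_left _ _)
      have b2 := hm.trans_le (min_le_right _ _)
      constructor
      · linarith
      · linarith
    · intro h s hs
      rw [Set.mem_iUnion] at h
      obtain ⟨m, hm⟩ := h
      rw [Set.mem_iInter₂] at hm
      have hcl : IsClosed {s : ℝ≥0 | 1 / ((m : ℝ) + 1) ≤ D (min s t) ω ∧
          D (min s t) ω ≤ 4 - 1 / ((m : ℝ) + 1)} := by
        have hcont : Continuous fun s : ℝ≥0 => D (min s t) ω :=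
          (hc ω).comp (continuous_id.min continuous_const)
        exact (isClosed_le continuous_const hcont).inter (isClosed_le hcont continuous_const)
      have hall : ∀ s : ℝ≥0, s ∈ {s : ℝ≥0 | 1 / ((m : ℝ) + 1) ≤ D (min s t) ω ∧
          D (min s t) ω ≤ 4 - 1 / ((m : ℝ) + 1)} := by
        intro s
        have h1 : closure S ⊆ {s : ℝ≥0 | 1 / ((m : ℝ) + 1) ≤ D (min s t) ω ∧
            D (min s t) ω ≤ 4 - 1 / ((m : ℝ) + 1)} := closure_minimal (fun q hq => hm q hq) hcl
        exact h1 (hSd s)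
      have h2 := hall s
      have hpos : (0 : ℝ) < 1 / ((m : ℝ) + 1) := Nat.one_div_pos_of_nat
      change 1 / ((m : ℝ) + 1) ≤ D (min s t) ω ∧ D (min s t) ω ≤ 4 - 1 / ((m : ℝ) + 1) at h2
      rw [min_eq_left hs] at h2
      exact ⟨by linarith [h2.1], by linarith [h2.2]⟩
  rw [heq]
  refine MeasurableSet.iUnion fun m => MeasurableSet.biInter hS fun q _ => ?_
  have hm : Measurable[F t] (D (min q t)) :=
    (hD (min q t)).measurable.mono (F.mono (min_le_right q t)) le_rfl
  exact hm (measurableSet_Icc (a := 1 / ((m : ℝ) + 1)) (b := 4 - 1 / ((m : ℝ) + 1)))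

theorem alive_anti {Ω : Type} (D : ℝ≥0 → Ω → ℝ) {s t : ℝ≥0} (h : s ≤ t) :
    alive D t ⊆ alive D s := fun _ hω u hu => hω u (hu.trans h)

/-- drift formula -/
theorem drift {Ω : Type} {mΩ : MeasurableSpace Ω} {P : Measure Ω} [IsProbabilityMeasure P]
    {F : Filtration ℝ≥0 mΩ} {Y J : ℝ≥0 → Ω → ℝ}
    (hM : Martingale (fun (t : ℝ≥0) ω => Y t ω - J t ω) F P) (hY : ∀ t, Integrable (Y t) P)
    {s t : ℝ≥0} (hst : s ≤ t) {C : Set Ω} (hC : MeasurableSet[F s] C) :
    ∫ ω in C, Y t ω ∂P = ∫ ω in C, Y s ω ∂P + ∫ ω in C, (J t ω - J s ω) ∂P := by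
  have h1 := hM.setIntegral_eq hst hC
  have hJ : ∀ t, Integrable (J t) P := by
    intro t
    have := (hY t).sub (hM.integrable t)
    refine this.congr (ae_of_all _ fun ω => ?_)
    simp
  rw [integral_sub (hJ t).integrableOn (hJ s).integrableOn]
  rw [integral_sub (hY s).integrableOn (hJ s).integrableOn,
    integral_sub (hY t).integrableOn (hJ t).integrableOn] at h1
  linarith

theorem split {Ω : Type} {mΩ : MeasurableSpace Ω} {P : Measure Ω} {A B : Set Ω}
    (hB : MeasurableSet B) (hBA : B ⊆ A) (f : Ω → ℝ) (hf : Integrable f P) :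
    ∫ ω in A, f ω ∂P = ∫ ω in B, f ω ∂P + ∫ ω in A \ B, f ω ∂P := by
  have h2 := integral_inter_add_sdiff (f := f) (μ := P) (s := A) hB hf.integrableOn
  rw [Set.inter_eq_right.mpr hBA] at h2
  exact h2.symm

theorem main : S_GAPD := by
  intro Ω mΩ P _ F D V b g Λ hg hg4 hΛ hc hD0 hD2 hM hM2 hVad hV0 hVnn hb hbm hMV
  have hDad : StronglyAdapted F D := hM.stronglyAdapted
  have hAm : ∀ t, MeasurableSet[F t] (alive D t) := alive_meas (P := P) hc hDad
  have hAm' : ∀ t, MeasurableSet (alive D t) := fun t => F.le t _ (hAm t)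
  set I : ℝ≥0 → Ω → ℝ := fun t ω => ∫ s in (0 : ℝ)..t, b s.toNNReal ω with hI
  have hbii : ∀ ω (x y : ℝ), IntervalIntegrable (fun s : ℝ => b s.toNNReal ω) volume x y := by
    intro ω x y
    apply ii _ (hbm ω) Λ
    intro s
    rw [Real.norm_eq_abs, abs_of_nonneg (hb _ _).1]
    exact (hb _ _).2
  have hIdiff : ∀ (s t : ℝ≥0), s ≤ t → ∀ ω, 0 ≤ I t ω - I s ω ∧
      I t ω - I s ω ≤ Λ * ((t : ℝ) - s) := by
    intro s t hst ω
    have h1 : I t ω - I s ω = ∫ u in (s : ℝ)..t, b u.toNNReal ω :=
      intervalIntegral.integral_interval_sub_left (hbii ω _ _) (hbii ω _ _)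
    rw [h1]
    have hst' : (s : ℝ) ≤ t := by exact_mod_cast hst
    constructor
    · exact intervalIntegral.integral_nonneg hst' fun u _ => (hb _ _).1
    · have h2 := intervalIntegral.integral_mono_on hst' (hbii ω s t)
        (intervalIntegrable_const (c := Λ)) fun u _ => (hb u.toNNReal ω).2
      rw [intervalIntegral.integral_const, smul_eq_mul] at h2
      linarith
  have hI0 : ∀ ω, I 0 ω = 0 := by
    intro ω
    simp [hI]
  have hII : ∀ t, Integrable (I t) P := by
    intro t
    have hmeas : AEStronglyMeasurable (I t) P := by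
      have h1 : I t = fun ω => V t ω - (V t ω - I t ω) := by
        funext ω; ring
      rw [h1]
      exact ((hVad t).mono (F.le t)).aestronglyMeasurable.sub (hMV.integrable t).aestronglyMeasurable
    refine Integrable.of_bound hmeas (Λ * t) (ae_of_all _ fun ω => ?_)
    have h2 := hIdiff 0 t bot_le ω
    rw [hI0, sub_zero, NNReal.coe_zero, sub_zero] at h2
    rw [Real.norm_eq_abs, abs_of_nonneg h2.1]
    exact h2.2
  have hVI : ∀ t, Integrable (V t) P := by
    intro t
    refine ((hMV.integrable t).add (hII t)).congr (ae_of_all _ fun ω => ?_)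
    simp [hI]
  refine ⟨hAm, hVI, fun N hN => ?_⟩
  have hN0 : (0 : ℝ) < N := by exact_mod_cast hN
  have hgr : ∀ k, ((grid N k : ℝ≥0) : ℝ) = 32 * k / N := by
    intro k
    simp [grid]
  have hgmono : ∀ {j k : ℕ}, j ≤ k → grid N j ≤ grid N k := by
    intro j k hjk
    rw [← NNReal.coe_le_coe, hgr, hgr]
    have : (j : ℝ) ≤ k := by exact_mod_cast hjk
    gcongr
  have hg0 : grid N 0 = 0 := by
    rw [← NNReal.coe_inj, hgr]; simp
  have hgN : grid N N = 32 := by
    rw [← NNReal.coe_inj, hgr]
    field_simp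
    rfl
  have hgstep : ∀ k, ((grid N (k + 1) : ℝ≥0) : ℝ) - grid N k = 32 / N := by
    intro k
    rw [hgr, hgr]
    push_cast
    field_simp
    ring
  -- the initial event has full measure
  have hA0 : alive D (grid N 0) =ᵐ[P] (Set.univ : Set Ω) := by
    rw [hg0]
    filter_upwards [hD0] with ω hω
    apply propext
    constructor
    · intro _; trivial
    · intro _ s hs
      have : s = 0 := le_antisymm hs bot_le
      subst this
      rw [hω]
      exact ⟨hg, hg4⟩
  have hA0i : ∀ f : Ω → ℝ, ∫ ω in alive D (grid N 0), f ω ∂P = ∫ ω, f ω ∂P := by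
    intro f
    rw [setIntegral_congr_set hA0, setIntegral_univ]
  have hDint : ∀ t, Integrable (D t) P := fun t => hM.integrable t
  have hD2int : ∀ t, Integrable (fun ω => D t ω ^ 2) P := fun t => (hD2 t).integrable_sq
  have hexit : ∀ k, exitAt D N (k + 1) = alive D (grid N k) \ alive D (grid N (k + 1)) := by
    intro k
    rfl
  have hsub : ∀ k, alive D (grid N (k + 1)) ⊆ alive D (grid N k) := fun k =>
    alive_anti D (hgmono (Nat.le_succ k))
  have hsplit : ∀ (k : ℕ) (f : Ω → ℝ), Integrable f P → ∫ ω in alive D (grid N k), f ω ∂P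
      = ∫ ω in alive D (grid N (k + 1)), f ω ∂P + ∫ ω in exitAt D N (k + 1), f ω ∂P := by
    intro k f hf
    rw [hexit]
    exact split (hAm' _) (hsub k) f hf
  -- first identity
  have c1 : ∀ K : ℕ, (∫ ω in alive D (grid N K), D (grid N K) ω ∂P) +
        ∑ k ∈ Finset.Icc 1 K, ∫ ω in exitAt D N k, D (grid N k) ω ∂P = g := by
    intro K
    induction K with
    | zero =>
      rw [hA0i]
      have : ∫ ω, D (grid N 0) ω ∂P = ∫ ω, g ∂P := by
        apply integral_congr_ae
        rw [hg0]
        exact hD0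
      rw [this]
      simp
    | succ K ih =>
      rw [Finset.sum_Icc_succ_top (by omega)]
      have h1 := hM.setIntegral_eq (hgmono (Nat.le_succ K)) (hAm (grid N K))
      have h2 := hsplit K (D (grid N (K + 1))) (hDint _)
      simp only [Nat.succ_eq_add_one] at h1
      linarith
  -- second
  set J : ℝ≥0 → Ω → ℝ := fun t ω =>
    2 * ∫ s in (0 : ℝ)..t, if D s.toNNReal ω = 0 then (0 : ℝ) else 1 with hJ
  have hjm : ∀ ω, Measurable fun s : ℝ => if D s.toNNReal ω = 0 then (0 : ℝ) else 1 := by
    intro ω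
    have h1 : Measurable fun s : ℝ => D s.toNNReal ω :=
      ((hc ω).comp continuous_real_toNNReal).measurable
    exact Measurable.ite (measurableSet_eq_fun h1 measurable_const) measurable_const measurable_const
  have hj01 : ∀ ω (s : ℝ), 0 ≤ (if D s.toNNReal ω = 0 then (0 : ℝ) else 1) ∧
      (if D s.toNNReal ω = 0 then (0 : ℝ) else 1) ≤ 1 := by
    intro ω s
    split_ifs <;> norm_num
  have hjii : ∀ ω (x y : ℝ), IntervalIntegrable
      (fun s : ℝ => if D s.toNNReal ω = 0 then (0 : ℝ) else 1) volume x y := by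
    intro ω x y
    apply ii _ (hjm ω) 1
    intro s
    rw [Real.norm_eq_abs, abs_of_nonneg (hj01 ω s).1]
    exact (hj01 ω s).2
  have hJdiff : ∀ (s t : ℝ≥0), s ≤ t → ∀ ω, 0 ≤ J t ω - J s ω := by
    intro s t hst ω
    have h1 : J t ω - J s ω = 2 * ∫ u in (s : ℝ)..t, if D u.toNNReal ω = 0 then (0 : ℝ) else 1 := by
      rw [← intervalIntegral.integral_interval_sub_left (hjii ω 0 _) (hjii ω 0 _)]
      simp only [hJ]; ring
    rw [h1]
    have hst' : (s : ℝ) ≤ t := by exact_mod_cast hst
    have := intervalIntegral.integral_nonneg (μ := volume) hst' fun u _ => (hj01 ω u).1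
    linarith
  have hJalive : ∀ (s t : ℝ≥0), s ≤ t → ∀ ω ∈ alive D t, J t ω - J s ω = 2 * ((t : ℝ) - s) := by
    intro s t hst ω hω
    have h1 : J t ω - J s ω = 2 * ∫ u in (s : ℝ)..t, if D u.toNNReal ω = 0 then (0 : ℝ) else 1 := by
      rw [← intervalIntegral.integral_interval_sub_left (hjii ω 0 _) (hjii ω 0 _)]
      simp only [hJ]; ring
    rw [h1]
    have hst' : (s : ℝ) ≤ t := by exact_mod_cast hst
    have h2 : ∫ u in (s : ℝ)..t, (if D u.toNNReal ω = 0 then (0 : ℝ) else 1)
        = ∫ u in (s : ℝ)..t, (1 : ℝ) := by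
      apply intervalIntegral.integral_congr
      intro u hu
      rw [uIcc_of_le hst'] at hu
      have h3 : u.toNNReal ≤ t := by
        rw [Real.toNNReal_le_iff_le_coe]
        exact hu.2
      have h4 := (hω _ h3).1
      change (if D u.toNNReal ω = 0 then (0 : ℝ) else 1) = 1
      rw [if_neg h4.ne']
    rw [h2, intervalIntegral.integral_const, smul_eq_mul, mul_one]
  have hJint : ∀ t, Integrable (J t) P := by
    intro t
    have := (hD2int t).sub (hM2.integrable t)
    refine this.congr (ae_of_all _ fun ω => ?_)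
    simp [hJ]
  have c2 : ∀ K : ℕ, g ^ 2 + 64 / N * ∑ k ∈ Finset.Icc 1 K, P.real (alive D (grid N k)) ≤
        (∫ ω in alive D (grid N K), D (grid N K) ω ^ 2 ∂P) +
          ∑ k ∈ Finset.Icc 1 K, ∫ ω in exitAt D N k, D (grid N k) ω ^ 2 ∂P := by
    intro K
    induction K with
    | zero =>
      rw [hA0i]
      have : ∫ ω, D (grid N 0) ω ^ 2 ∂P = ∫ ω, g ^ 2 ∂P := by
        apply integral_congr_ae
        rw [hg0]
        filter_upwards [hD0] with ω hω
        rw [hω]
      rw [this]
      simp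
    | succ K ih =>
      rw [Finset.sum_Icc_succ_top (by omega), Finset.sum_Icc_succ_top (by omega)]
      have h1 := drift (Y := fun t ω => D t ω ^ 2) (J := J) hM2 hD2int (hgmono (Nat.le_succ K))
        (hAm (grid N K))
      simp only [Nat.succ_eq_add_one] at h1
      have h2 := hsplit K (fun ω => D (grid N (K + 1)) ω ^ 2) (hD2int _)
      have h3 : 64 / N * P.real (alive D (grid N (K + 1)))
          ≤ ∫ ω in alive D (grid N K), (J (grid N (K + 1)) ω - J (grid N K) ω) ∂P := by
        have hint : Integrable (fun ω => J (grid N (K + 1)) ω - J (grid N K) ω) P :=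
          (hJint _).sub (hJint _)
        rw [hsplit K _ hint]
        have h4 : 0 ≤ ∫ ω in exitAt D N (K + 1), (J (grid N (K + 1)) ω - J (grid N K) ω) ∂P :=
          integral_nonneg fun ω => hJdiff _ _ (hgmono (Nat.le_succ K)) ω
        have h5 : ∫ ω in alive D (grid N (K + 1)), (J (grid N (K + 1)) ω - J (grid N K) ω) ∂P
            = ∫ ω in alive D (grid N (K + 1)), (64 / N : ℝ) ∂P := by
          apply setIntegral_congr_fun (hAm' _)
          intro ω hω
          change J (grid N (K + 1)) ω - J (grid N K) ω = 64 / N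
          rw [hJalive _ _ (hgmono (Nat.le_succ K)) ω hω, hgstep]
          ring
        rw [h5, setIntegral_const, smul_eq_mul]
        linarith
      have h6 : 64 / (N : ℝ) * (∑ k ∈ Finset.Icc 1 K, P.real (alive D (grid N k)) +
          P.real (alive D (grid N (K + 1))))
          = 64 / (N : ℝ) * ∑ k ∈ Finset.Icc 1 K, P.real (alive D (grid N k)) +
            64 / (N : ℝ) * P.real (alive D (grid N (K + 1))) := by ring
      rw [h6]
      linarith
  -- third
  have c3 : ∀ K : ℕ, (∫ ω in alive D (grid N K), V (grid N K) ω ∂P) +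
          ∑ k ∈ Finset.Icc 1 K, ∫ ω in exitAt D N k, V (grid N k) ω ∂P ≤
        Λ * (32 / N) * ∑ k ∈ Finset.range K, P.real (alive D (grid N k)) := by
    intro K
    induction K with
    | zero =>
      rw [hA0i]
      have : ∫ ω, V (grid N 0) ω ∂P = ∫ ω, (0 : ℝ) ∂P := by
        apply integral_congr_ae
        rw [hg0]
        exact hV0
      rw [this]
      simp
    | succ K ih =>
      rw [Finset.sum_Icc_succ_top (by omega), Finset.sum_range_succ]
      have h1 := drift (Y := V) (J := I) hMV hVI (hgmono (Nat.le_succ K)) (hAm (grid N K))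
      simp only [Nat.succ_eq_add_one] at h1
      have h2 := hsplit K (V (grid N (K + 1))) (hVI _)
      have h3 : ∫ ω in alive D (grid N K), (I (grid N (K + 1)) ω - I (grid N K) ω) ∂P
          ≤ Λ * (32 / N) * P.real (alive D (grid N K)) := by
        have h4 : ∫ ω in alive D (grid N K), (I (grid N (K + 1)) ω - I (grid N K) ω) ∂P
            ≤ ∫ ω in alive D (grid N K), (Λ * (32 / N) : ℝ) ∂P := by
          apply setIntegral_mono ((hII _).sub (hII _)).integrableOn
            (integrable_const _).integrableOn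
          intro ω
          have := (hIdiff _ _ (hgmono (Nat.le_succ K)) ω).2
          simp only [Nat.succ_eq_add_one, hgstep] at this
          exact this
        rw [setIntegral_const, smul_eq_mul] at h4
        linarith
      have h6 : Λ * (32 / (N : ℝ)) * (∑ k ∈ Finset.range K, P.real (alive D (grid N k)) +
          P.real (alive D (grid N K)))
          = Λ * (32 / (N : ℝ)) * ∑ k ∈ Finset.range K, P.real (alive D (grid N k)) +
            Λ * (32 / (N : ℝ)) * P.real (alive D (grid N K)) := by ring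
      rw [h6]
      linarith
  have d1 := c1 N
  have d2 := c2 N
  have d3 := c3 N
  rw [hgN] at d1 d2 d3
  refine ⟨d1, d2, d3, ?_⟩
  intro k hk C hC
  have hle : grid N k ≤ 32 := by rw [← hgN]; exact hgmono hk
  have h1 := hM.setIntegral_eq hle hC
  have h2 := drift (Y := V) (J := I) hMV hVI hle hC
  have h3 : ∫ ω in C, (I 32 ω - I (grid N k) ω) ∂P ≤ 32 * Λ * P.real C := by
    have h4 : ∫ ω in C, (I 32 ω - I (grid N k) ω) ∂P ≤ ∫ ω in C, (32 * Λ : ℝ) ∂P := by
      apply setIntegral_mono ((hII _).sub (hII _)).integrableOn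
        (integrable_const _).integrableOn
      intro ω
      have h5 := (hIdiff _ _ hle ω).2
      have h6 : ((32 : ℝ≥0) : ℝ) - grid N k ≤ 32 := by
        have : (0 : ℝ) ≤ (grid N k : ℝ) := NNReal.coe_nonneg _
        have h32 : ((32 : ℝ≥0) : ℝ) = 32 := rfl
        rw [h32]
        linarith
      change I 32 ω - I (grid N k) ω ≤ 32 * Λ
      nlinarith
    rw [setIntegral_const, smul_eq_mul] at h4
    linarith
  rw [integral_sub (hDint _).integrableOn (hVI _).integrableOn,
    integral_sub (hDint _).integrableOn (hVI _).integrableOn]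
  linarith

end Pool.Agent.W683.HW
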